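import Mathlib

/-!
# A local lemma for random permutations and (2,2)-acceptable Hamilton cycles

(A copy of helper42's file Pool.Agent.X42.HamLLL.)
-/

set_option autoImplicit false

namespace Pool.Agent.X43.HamLLL

open Finset

section General

variable {Ω I : Type*} [Fintype Ω] [DecidableEq Ω] [DecidableEq I]

/-- The outcomes in none of the events `A i`, `i ∈ S`. -/
def good (A : I → Finset Ω) (S : Finset I) : Finset Ω := univ.filter fun ω => ∀ i ∈ S, ω ∉ A i

omit [DecidableEq I] in
theorem mem_good {A : I → Finset Ω} {S : Finset I} {ω : Ω} :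
    ω ∈ good A S ↔ ∀ i ∈ S, ω ∉ A i := by simp [good]

omit [DecidableEq I] in
theorem good_anti {A : I → Finset Ω} {S T : Finset I} (h : S ⊆ T) : good A T ⊆ good A S := by
  intro ω hω
  rw [mem_good] at hω ⊢
  exact fun i hi => hω i (h hi)

/-- The lopsided local lemma, counting form. -/
theorem lll [Nonempty Ω] (A : I → Finset Ω) (E : Finset I) (conf : I → I → Prop)
    [DecidableRel conf] (M D : ℕ) (hM : 2 < M) (hDM : 4 * D ≤ M)
    (hD : ∀ i ∈ E, (E.filter (conf i)).card ≤ D)
    (hlop : ∀ i ∈ E, ∀ S ⊆ E, (∀ j ∈ S, ¬ conf i j) →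
      (A i ∩ good A S).card * M ≤ (good A S).card) : (good A E).Nonempty := by
  have key : ∀ n : ℕ, ∀ S ⊆ E, S.card = n → (good A S).Nonempty ∧
      ∀ i ∈ E, (A i ∩ good A S).card * M ≤ 2 * (good A S).card := by
    intro n
    induction n using Nat.strong_induction_on with
    | _ n ih =>
      intro S hS hn
      have hne : (good A S).Nonempty := by
        rcases S.eq_empty_or_nonempty with rfl | ⟨i, hi⟩
        · obtain ⟨ω⟩ := ‹Nonempty Ω›
          exact ⟨ω, mem_good.2 (by simp)⟩
        · have hc : (S.erase i).card < n := by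
            rw [← hn]; exact Finset.card_erase_lt_of_mem hi
          obtain ⟨h1, h2⟩ := ih _ hc (S.erase i) ((Finset.erase_subset _ _).trans hS) rfl
          have h3 := h2 i (hS hi)
          have h4 : good A (S.erase i) ⊆ (A i ∩ good A (S.erase i)) ∪ good A S := by
            intro ω hω
            by_cases hωi : ω ∈ A i
            · exact mem_union_left _ (mem_inter.2 ⟨hωi, hω⟩)
            · apply mem_union_right
              rw [mem_good] at hω ⊢
              intro j hj
              by_cases hji : j = i
              · rwa [hji]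
              · exact hω j (Finset.mem_erase.2 ⟨hji, hj⟩)
          have h5 := (Finset.card_le_card h4).trans (Finset.card_union_le _ _)
          rw [← Finset.card_pos]
          have h6 : 0 < (good A (S.erase i)).card := Finset.card_pos.2 h1
          by_contra hc0
          have hc0' : (good A S).card = 0 := by omega
          have h7 : (good A (S.erase i)).card ≤ (A i ∩ good A (S.erase i)).card := by omega
          have h8 : (good A (S.erase i)).card * M ≤ 2 * (good A (S.erase i)).card :=
            (Nat.mul_le_mul_right M h7).trans h3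
          nlinarith
      refine ⟨hne, fun i hi => ?_⟩
      -- split `S`
      set S₁ := S.filter (conf i) with hS₁
      set S₂ := S.filter (fun j => ¬ conf i j) with hS₂
      have hsub2 : S₂ ⊆ S := Finset.filter_subset _ _
      have h1 : (A i ∩ good A S₂).card * M ≤ (good A S₂).card :=
        hlop i hi S₂ (hsub2.trans hS) fun j hj => (Finset.mem_filter.1 hj).2
      have h2 : (A i ∩ good A S).card ≤ (A i ∩ good A S₂).card :=
        Finset.card_le_card (Finset.inter_subset_inter_left (good_anti hsub2))
      -- `|good S₂| ≤ 2 |good S|`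
      have h3 : (good A S₂).card ≤ 2 * (good A S).card := by
        by_cases hS1e : S₁ = ∅
        · have : S₂ = S := by
            ext j
            rw [hS₂, Finset.mem_filter, and_iff_left_iff_imp]
            intro hj hc
            have : j ∈ S₁ := Finset.mem_filter.2 ⟨hj, hc⟩
            rw [hS1e] at this
            exact absurd this (Finset.notMem_empty _)
          rw [this]
          omega
        · have hcard : S₂.card < n := by
            rw [← hn]
            apply Finset.card_lt_card
            refine ⟨hsub2, fun hss => hS1e ?_⟩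
            rw [Finset.eq_empty_iff_forall_notMem]
            intro j hj
            obtain ⟨hj1, hj2⟩ := Finset.mem_filter.1 hj
            exact (Finset.mem_filter.1 (hss hj1)).2 hj2
          obtain ⟨-, h4⟩ := ih _ hcard S₂ (hsub2.trans hS) rfl
          have h5 : good A S₂ ⊆ S₁.biUnion (fun j => A j ∩ good A S₂) ∪ good A S := by
            intro ω hω
            by_cases hω' : ∃ j ∈ S₁, ω ∈ A j
            · obtain ⟨j, hj, hωj⟩ := hω'
              exact mem_union_left _ (Finset.mem_biUnion.2 ⟨j, hj, mem_inter.2 ⟨hωj, hω⟩⟩)
            · push Not at hω'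
              apply mem_union_right
              rw [mem_good] at hω ⊢
              intro j hj
              by_cases hji : conf i j
              · exact hω' j (Finset.mem_filter.2 ⟨hj, hji⟩)
              · exact hω j (Finset.mem_filter.2 ⟨hj, hji⟩)
          have h6 := (Finset.card_le_card h5).trans (Finset.card_union_le _ _)
          have h7 : (S₁.biUnion (fun j => A j ∩ good A S₂)).card * M ≤
              D * (2 * (good A S₂).card) := by
            calc (S₁.biUnion (fun j => A j ∩ good A S₂)).card * M
                ≤ (∑ j ∈ S₁, (A j ∩ good A S₂).card) * M := by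
                  gcongr; exact Finset.card_biUnion_le
              _ = ∑ j ∈ S₁, (A j ∩ good A S₂).card * M := Finset.sum_mul _ _ _
              _ ≤ ∑ _j ∈ S₁, 2 * (good A S₂).card := by
                  apply Finset.sum_le_sum
                  intro j hj
                  exact h4 j (hS (Finset.mem_filter.1 hj).1)
              _ = S₁.card * (2 * (good A S₂).card) := by rw [Finset.sum_const, smul_eq_mul]
              _ ≤ D * (2 * (good A S₂).card) := by
                  gcongr
                  refine le_trans (Finset.card_le_card ?_) (hD i hi)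
                  exact Finset.filter_subset_filter _ hS
          have h8 : 2 * (S₁.biUnion (fun j => A j ∩ good A S₂)).card ≤ (good A S₂).card := by
            have : (2 * (S₁.biUnion (fun j => A j ∩ good A S₂)).card) * M ≤
                (good A S₂).card * M := by nlinarith
            exact Nat.le_of_mul_le_mul_right this (by omega)
          omega
      calc (A i ∩ good A S).card * M ≤ (A i ∩ good A S₂).card * M := by gcongr
        _ ≤ (good A S₂).card := h1
        _ ≤ 2 * (good A S).card := h3
  exact (key _ E subset_rfl rfl).1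

end General

section Perm

variable {P V : Type*} [Fintype P] [DecidableEq P] [Fintype V] [DecidableEq V]

omit [Fintype V] in
/-- A permutation moving one tuple of distinct elements to another, and nothing outside. -/
theorem exists_move (k : ℕ) : ∀ x y : Fin k → V, Function.Injective x → Function.Injective y →
    ∃ τ : Equiv.Perm V, (∀ s, τ (x s) = y s) ∧
      ∀ v, (∀ s, v ≠ x s) → (∀ s, v ≠ y s) → τ v = v := by
  induction k with
  | zero =>
    intro x y _ _
    exact ⟨Equiv.refl V, fun s => s.elim0, fun v _ _ => rfl⟩
  | succ k ih =>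
    intro x y hx hy
    obtain ⟨τ, h1, h2⟩ := ih (fun s => x s.castSucc) (fun s => y s.castSucc)
      (hx.comp (Fin.castSucc_injective k)) (hy.comp (Fin.castSucc_injective k))
    refine ⟨τ.trans (Equiv.swap (τ (x (Fin.last k))) (y (Fin.last k))), ?_, ?_⟩
    · intro s
      refine Fin.lastCases ?_ (fun s => ?_) s
      · simp
      · have h3 : τ (x s.castSucc) = y s.castSucc := h1 s
        rw [Equiv.trans_apply, h3]
        apply Equiv.swap_apply_of_ne_of_ne
        · rw [← h3]
          intro h
          exact absurd (hx (τ.injective h)) (Fin.castSucc_lt_last s).ne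
        · intro h
          exact absurd (hy h) (Fin.castSucc_lt_last s).ne
    · intro v hv hv'
      have h3 := h2 v (fun s => hv s.castSucc) (fun s => hv' s.castSucc)
      rw [Equiv.trans_apply, h3]
      apply Equiv.swap_apply_of_ne_of_ne
      · rw [← h3]
        intro h
        exact hv (Fin.last k) (τ.injective h)
      · exact hv' (Fin.last k)

/-- The bijections `π` with `π (p s) = x s` for all `s`. -/
def ev {k : ℕ} (e : (Fin k → P) × (Fin k → V)) : Finset (P ≃ V) :=
  univ.filter fun π => ∀ s, π (e.1 s) = e.2 s

theorem mem_ev {k : ℕ} {e : (Fin k → P) × (Fin k → V)} {π : P ≃ V} :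
    π ∈ ev e ↔ ∀ s, π (e.1 s) = e.2 s := by simp [ev]

/-- Two events conflict: they share a position or a value. -/
def Conf {k : ℕ} (e e' : (Fin k → P) × (Fin k → V)) : Prop :=
  ∃ s t, e.1 s = e'.1 t ∨ e.2 s = e'.2 t

instance {k : ℕ} : DecidableRel (Conf (P := P) (V := V) (k := k)) := fun _ _ =>
  inferInstanceAs (Decidable (∃ _ _, _))

theorem lopsided {k : ℕ} (e : (Fin k → P) × (Fin k → V))
    (he2 : Function.Injective e.2) (S : Finset ((Fin k → P) × (Fin k → V)))
    (hS : ∀ e' ∈ S, ¬ Conf e e') :
    (ev e ∩ good ev S).card * (Fintype.card V).descFactorial k ≤ (good ev S).card := by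
  have h1 : ∀ y : Fin k ↪ V, (ev e ∩ good ev S).card ≤ (ev (e.1, ⇑y) ∩ good ev S).card := by
    intro y
    obtain ⟨τ, h1, h2⟩ := exists_move k e.2 y he2 y.injective
    apply Finset.card_le_card_of_injOn (fun π => π.trans τ)
    · intro π hπ
      rw [Finset.mem_coe, Finset.mem_inter, mem_ev, mem_good] at hπ ⊢
      refine ⟨fun s => ?_, fun e' he' hmem => ?_⟩
      · rw [Equiv.trans_apply, hπ.1 s, h1 s]
      · rw [mem_ev] at hmem
        apply hπ.2 e' he'
        rw [mem_ev]
        intro t
        have h3 := hmem t
        rw [Equiv.trans_apply] at h3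
        -- the value `e'.2 t` is not in the range of `y`
        have h4 : ∀ s, e'.2 t ≠ y s := by
          intro s hs
          rw [hs, ← h1 s, ← hπ.1 s] at h3
          have h5 := π.injective (τ.injective h3)
          exact hS e' he' ⟨s, t, Or.inl h5.symm⟩
        have h5 : ∀ s, e'.2 t ≠ e.2 s := fun s hs => hS e' he' ⟨s, t, Or.inr hs.symm⟩
        have h6 := h2 _ h5 h4
        exact τ.injective (h3.trans h6.symm)
    · intro π _ π' _ h
      ext q
      have := congrArg (fun f : P ≃ V => f q) h
      exact τ.injective this
  have h2 : ((univ : Finset (Fin k ↪ V)).biUnion fun y => ev (e.1, ⇑y) ∩ good ev S) ⊆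
      good ev S := by
    intro π hπ
    obtain ⟨y, -, hy⟩ := Finset.mem_biUnion.1 hπ
    exact (Finset.mem_inter.1 hy).2
  have h3 := Finset.card_le_card h2
  rw [Finset.card_biUnion] at h3
  · calc (ev e ∩ good ev S).card * (Fintype.card V).descFactorial k
        = ∑ _y : Fin k ↪ V, (ev e ∩ good ev S).card := by
          rw [Finset.sum_const, Finset.card_univ, Fintype.card_embedding_eq, Fintype.card_fin,
            smul_eq_mul, mul_comm]
      _ ≤ ∑ y : Fin k ↪ V, (ev (e.1, ⇑y) ∩ good ev S).card := Finset.sum_le_sum fun y _ => h1 y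
      _ ≤ _ := h3
  · intro y _ y' _ hyy
    change Disjoint (ev (e.1, ⇑y) ∩ good ev S) (ev (e.1, ⇑y') ∩ good ev S)
    rw [Finset.disjoint_left]
    intro π hπ hπ'
    apply hyy
    ext s
    rw [Finset.mem_inter, mem_ev] at hπ hπ'
    exact (hπ.1 s).symm.trans (hπ'.1 s)

end Perm

/-! ### Hamilton cycles -/

section Ham

variable {n : ℕ} [NeZero n]

/-- The Hamilton cycle `π 0, π 1, ..., π (n-1), π 0` of the complete graph on `Fin n`, given by a
bijection `π : ZMod n ≃ Fin n`, is `(2,2)`-acceptable with respect to `F`: the union of two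
vertex-disjoint edges `{π i, π (i+1)}`, `{π j, π (j+1)}` of the cycle is never a member of `F`. -/
def Acceptable (F : Finset (Finset (Fin n))) (π : ZMod n ≃ Fin n) : Prop :=
  ∀ i j : ZMod n, Disjoint ({π i, π (i + 1)} : Finset (Fin n)) {π j, π (j + 1)} →
    ({π i, π (i + 1)} ∪ {π j, π (j + 1)} : Finset (Fin n)) ∉ F

/-- The `2`-degree of `F`: the maximum over the pairs `D` of the number of members of `F`
containing `D`. -/
def deg2 (F : Finset (Finset (Fin n))) : ℕ :=
  (Finset.powersetCard 2 (Finset.univ : Finset (Fin n))).sup fun D =>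
    (F.filter fun A => D ⊆ A).card

omit [NeZero n] in
theorem card_pair_le (F : Finset (Finset (Fin n))) {a b : Fin n} (hab : a ≠ b) :
    (F.filter fun A => a ∈ A ∧ b ∈ A).card ≤ deg2 F := by
  have h1 : ({a, b} : Finset (Fin n)) ∈ Finset.powersetCard 2 (Finset.univ : Finset (Fin n)) :=
    Finset.mem_powersetCard.2 ⟨Finset.subset_univ _, Finset.card_pair hab⟩
  have h2 := Finset.le_sup (f := fun D : Finset (Fin n) => (F.filter fun A => D ⊆ A).card) h1
  refine le_trans (le_of_eq ?_) h2
  congr 1
  ext A
  simp [Finset.insert_subset_iff]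

/-- The injective quadruples whose set of entries is in `F`. -/
def quads (F : Finset (Finset (Fin n))) : Finset (Fin 4 → Fin n) :=
  univ.filter fun x => Function.Injective x ∧ univ.image x ∈ F

theorem prod_le_sixteen : ∀ s t : Fin 4, s ≠ t →
    (∏ r : Fin 4, if r = s then 1 else if r = t then 1 else 4) ≤ 16 := by decide

omit [NeZero n] in
theorem card_quads_two (F : Finset (Finset (Fin n))) (hF : ∀ A ∈ F, A.card = 4) {s t : Fin 4}
    (hst : s ≠ t) (a b : Fin n) :
    ((quads F).filter fun x => x s = a ∧ x t = b).card ≤ 16 * deg2 F := by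
  by_cases hab : a = b
  · subst hab
    have : ((quads F).filter fun x => x s = a ∧ x t = a) = ∅ := by
      rw [Finset.eq_empty_iff_forall_notMem]
      intro x hx
      obtain ⟨hx1, hx2, hx3⟩ := Finset.mem_filter.1 hx
      have := (Finset.mem_filter.1 hx1).2.1
      exact hst (this (hx2.trans hx3.symm))
    rw [this]
    simp
  · have h1 : ((quads F).filter fun x => x s = a ∧ x t = b) ⊆
        (F.filter fun A => a ∈ A ∧ b ∈ A).biUnion fun A =>
          Fintype.piFinset fun r : Fin 4 => if r = s then {a} else if r = t then {b} else A := by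
      intro x hx
      obtain ⟨hx1, hx2, hx3⟩ := Finset.mem_filter.1 hx
      obtain ⟨-, -, hx4⟩ := Finset.mem_filter.1 hx1
      refine Finset.mem_biUnion.2 ⟨_, Finset.mem_filter.2 ⟨hx4, ?_, ?_⟩, ?_⟩
      · rw [← hx2]; exact Finset.mem_image_of_mem _ (Finset.mem_univ _)
      · rw [← hx3]; exact Finset.mem_image_of_mem _ (Finset.mem_univ _)
      · rw [Fintype.mem_piFinset]
        intro r
        split_ifs with h h'
        · rw [h, hx2]; exact Finset.mem_singleton_self a
        · rw [h', hx3]; exact Finset.mem_singleton_self b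
        · exact Finset.mem_image_of_mem _ (Finset.mem_univ _)
    refine (Finset.card_le_card h1).trans (Finset.card_biUnion_le.trans ?_)
    calc ∑ A ∈ F.filter (fun A => a ∈ A ∧ b ∈ A), (Fintype.piFinset fun r : Fin 4 =>
            if r = s then ({a} : Finset (Fin n)) else if r = t then {b} else A).card
        ≤ ∑ A ∈ F.filter (fun A => a ∈ A ∧ b ∈ A), 16 := by
          apply Finset.sum_le_sum
          intro A hA
          have hA4 := hF A (Finset.mem_filter.1 hA).1
          rw [Fintype.card_piFinset]
          have h2 : ∀ r : Fin 4, (if r = s then ({a} : Finset (Fin n)) else if r = t then {b}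
              else A).card = if r = s then 1 else if r = t then 1 else 4 := by
            intro r
            split_ifs
            · simp
            · simp
            · exact hA4
          rw [Finset.prod_congr rfl fun r _ => h2 r]
          exact prod_le_sixteen s t hst
      _ = (F.filter (fun A => a ∈ A ∧ b ∈ A)).card * 16 := by rw [Finset.sum_const, smul_eq_mul]
      _ ≤ deg2 F * 16 := by gcongr; exact card_pair_le F hab
      _ = 16 * deg2 F := mul_comm _ _

omit [NeZero n] in
theorem card_quads_one (F : Finset (Finset (Fin n))) (hF : ∀ A ∈ F, A.card = 4) (t : Fin 4)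
    (b : Fin n) : ((quads F).filter fun x => x t = b).card ≤ n * (16 * deg2 F) := by
  obtain ⟨s, hst⟩ : ∃ s : Fin 4, s ≠ t := by
    revert t; decide
  have h1 : ((quads F).filter fun x => x t = b) ⊆ (univ : Finset (Fin n)).biUnion fun a =>
      (quads F).filter fun x => x s = a ∧ x t = b := by
    intro x hx
    obtain ⟨hx1, hx2⟩ := Finset.mem_filter.1 hx
    exact Finset.mem_biUnion.2 ⟨x s, Finset.mem_univ _, Finset.mem_filter.2 ⟨hx1, rfl, hx2⟩⟩
  refine (Finset.card_le_card h1).trans (Finset.card_biUnion_le.trans ?_)
  calc _ ≤ ∑ _a : Fin n, 16 * deg2 F :=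
        Finset.sum_le_sum fun a _ => card_quads_two F hF hst a b
    _ = n * (16 * deg2 F) := by simp

omit [NeZero n] in
theorem card_quads (F : Finset (Finset (Fin n))) (hF : ∀ A ∈ F, A.card = 4) :
    (quads F).card ≤ n * (n * (16 * deg2 F)) := by
  have h1 : (quads F) ⊆ (univ : Finset (Fin n)).biUnion fun a =>
      (quads F).filter fun x => x 0 = a := by
    intro x hx
    exact Finset.mem_biUnion.2 ⟨x 0, Finset.mem_univ _, Finset.mem_filter.2 ⟨hx, rfl⟩⟩
  refine (Finset.card_le_card h1).trans (Finset.card_biUnion_le.trans ?_)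
  calc _ ≤ ∑ _a : Fin n, n * (16 * deg2 F) :=
        Finset.sum_le_sum fun a _ => card_quads_one F hF 0 a
    _ = n * (n * (16 * deg2 F)) := by simp

/-- The four positions of the two edges starting at the positions `i` and `j`. -/
def pos (ij : ZMod n × ZMod n) : Fin 4 → ZMod n := ![ij.1, ij.1 + 1, ij.2, ij.2 + 1]

/-- The bad events. -/
def bad (F : Finset (Finset (Fin n))) : Finset ((Fin 4 → ZMod n) × (Fin 4 → Fin n)) :=
  ((univ.image (pos (n := n))).filter fun p => Function.Injective p) ×ˢ quads F

theorem card_pos_image_le (t : Fin 4) (q : ZMod n) :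
    ((univ.image (pos (n := n))).filter fun p => p t = q).card ≤ n := by
  have hcard : (univ : Finset (ZMod n)).card = n := by rw [Finset.card_univ, ZMod.card]
  have h : ((univ.image (pos (n := n))).filter fun p => p t = q) ⊆
      (univ : Finset (ZMod n)).image fun i =>
        if t = 0 then pos (q, i) else if t = 1 then pos (q - 1, i)
        else if t = 2 then pos (i, q) else pos (i, q - 1) := by
    intro p hp
    obtain ⟨hp1, hp2⟩ := Finset.mem_filter.1 hp
    obtain ⟨⟨i, j⟩, -, rfl⟩ := Finset.mem_image.1 hp1
    rw [Finset.mem_image]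
    fin_cases t
    · refine ⟨j, Finset.mem_univ _, ?_⟩
      simp [pos] at hp2
      simp [pos, ← hp2]
    · refine ⟨j, Finset.mem_univ _, ?_⟩
      simp [pos] at hp2
      simp [pos, ← hp2]
    · refine ⟨i, Finset.mem_univ _, ?_⟩
      simp [pos] at hp2
      simp [pos, ← hp2]
    · refine ⟨i, Finset.mem_univ _, ?_⟩
      simp [pos] at hp2
      simp [pos, ← hp2]
  exact (Finset.card_le_card h).trans (Finset.card_image_le.trans hcard.le)

theorem card_conf_le (F : Finset (Finset (Fin n))) (hF : ∀ A ∈ F, A.card = 4)
    (e : (Fin 4 → ZMod n) × (Fin 4 → Fin n)) :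
    ((bad F).filter (Conf e)).card ≤ 512 * (n * (n * (n * deg2 F))) := by
  have hsub : (bad F).filter (Conf e) ⊆ (univ : Finset (Fin 4 × Fin 4)).biUnion fun st =>
      (((univ.image (pos (n := n))).filter fun p => p st.2 = e.1 st.1) ×ˢ quads F) ∪
      ((univ.image (pos (n := n))) ×ˢ ((quads F).filter fun x => x st.2 = e.2 st.1)) := by
    intro e' he'
    obtain ⟨h1, s, t, h2⟩ := Finset.mem_filter.1 he'
    obtain ⟨h3, h4⟩ := Finset.mem_product.1 h1
    have h5 := (Finset.mem_filter.1 h3).1
    refine Finset.mem_biUnion.2 ⟨(s, t), Finset.mem_univ _, ?_⟩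
    rcases h2 with h2 | h2
    · exact Finset.mem_union_left _ (Finset.mem_product.2 ⟨Finset.mem_filter.2 ⟨h5, h2.symm⟩, h4⟩)
    · exact Finset.mem_union_right _ (Finset.mem_product.2 ⟨h5, Finset.mem_filter.2 ⟨h4, h2.symm⟩⟩)
  refine (Finset.card_le_card hsub).trans (Finset.card_biUnion_le.trans ?_)
  have hpos : (univ.image (pos (n := n))).card ≤ n * n := by
    refine Finset.card_image_le.trans (le_of_eq ?_)
    rw [Finset.card_univ, Fintype.card_prod, ZMod.card]
  calc _ ≤ ∑ _st : Fin 4 × Fin 4, 32 * (n * (n * (n * deg2 F))) := by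
        apply Finset.sum_le_sum
        intro st _
        refine (Finset.card_union_le _ _).trans ?_
        rw [Finset.card_product, Finset.card_product]
        calc _ ≤ n * (n * (n * (16 * deg2 F))) + n * n * (n * (16 * deg2 F)) := by
              gcongr
              · exact card_pos_image_le _ _
              · exact card_quads F hF
              · exact card_quads_one F hF _ _
          _ = _ := by ring
    _ = _ := by
        rw [Finset.sum_const, Finset.card_univ]
        simp
        ring

theorem exists_acceptable (hn : 6 ≤ n) (F : Finset (Finset (Fin n))) (hF : ∀ A ∈ F, A.card = 4)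
    (hd : 16384 * deg2 F ≤ n) : ∃ π : ZMod n ≃ Fin n, Acceptable F π := by
  classical
  have hcardV : Fintype.card (Fin n) = n := Fintype.card_fin n
  have : Nonempty (ZMod n ≃ Fin n) := by
    rw [← Fintype.card_eq]
    rw [ZMod.card, Fintype.card_fin]
  have hM : n * (n * (n * n)) ≤ 8 * (Fintype.card (Fin n)).descFactorial 4 := by
    rw [hcardV]
    obtain ⟨m, rfl⟩ : ∃ m, n = m + 6 := ⟨n - 6, by omega⟩
    have : (m + 6).descFactorial 4 = (m + 3) * ((m + 4) * ((m + 5) * (m + 6))) := by
      simp only [Nat.descFactorial_succ, Nat.descFactorial_zero, mul_one]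
      rfl
    rw [this]
    nlinarith [Nat.zero_le m, Nat.zero_le (m * m), Nat.zero_le (m * m * m), Nat.zero_le (m*m*m*m)]
  obtain ⟨π, hπ⟩ := lll (fun e : (Fin 4 → ZMod n) × (Fin 4 → Fin n) => ev e) (bad F) Conf
    ((Fintype.card (Fin n)).descFactorial 4) (512 * (n * (n * (n * deg2 F)))) (by
      have : 6 * (6 * (6 * 6)) ≤ n * (n * (n * n)) := by gcongr
      omega)
    (by nlinarith) (fun e _ => card_conf_le F hF e) (fun e he S _ hS => by
      obtain ⟨-, h4⟩ := Finset.mem_product.1 he
      exact lopsided e (Finset.mem_filter.1 h4).2.1 S hS)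
  refine ⟨π, fun i j hdisj hmem => ?_⟩
  rw [mem_good] at hπ
  have hadj : ∀ k : ZMod n, k ≠ k + 1 := by
    intro k h
    have h01 : (1 : ZMod n) = 0 := by
      have h2 : k + 1 = k + 0 := by rw [add_zero]; exact h.symm
      exact add_left_cancel h2
    have h2 : Fact (1 < n) := ⟨by omega⟩
    exact one_ne_zero h01
  rw [Finset.disjoint_left] at hdisj
  have h02 : i ≠ j := by
    rintro rfl
    exact hdisj (Finset.mem_insert_self _ _) (Finset.mem_insert_self _ _)
  have h03 : i ≠ j + 1 := by
    rintro rfl
    exact hdisj (Finset.mem_insert_self _ _)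
      (Finset.mem_insert_of_mem (Finset.mem_singleton_self _))
  have h12 : i + 1 ≠ j := by
    rintro rfl
    exact hdisj (Finset.mem_insert_of_mem (Finset.mem_singleton_self _))
      (Finset.mem_insert_self _ _)
  have h13 : i + 1 ≠ j + 1 := fun h => h02 (add_right_cancel h)
  have hinj0 : Function.Injective (pos (i, j)) := by
    intro s t hst
    fin_cases s <;> fin_cases t <;>
      first
        | rfl
        | exact absurd hst (hadj _)
        | exact absurd hst.symm (hadj _)
        | exact absurd hst h02
        | exact absurd hst h03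
        | exact absurd hst h12
        | exact absurd hst h13
        | exact absurd hst.symm h02
        | exact absurd hst.symm h03
        | exact absurd hst.symm h12
        | exact absurd hst.symm h13
  have hinj : Function.Injective fun s => π (pos (i, j) s) := π.injective.comp hinj0
  apply hπ (pos (i, j), fun s => π (pos (i, j) s))
  · refine Finset.mem_product.2 ⟨Finset.mem_filter.2 ⟨Finset.mem_image_of_mem _ (mem_univ _), ?_⟩,
      Finset.mem_filter.2 ⟨mem_univ _, hinj, ?_⟩⟩
    · intro s t hst
      exact hinj (congrArg π hst)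
    · convert hmem using 1
      ext v
      simp [pos, Fin.exists_fin_succ, eq_comm]
      tauto
  · rw [mem_ev]
    intro s
    rfl

end Ham

end Pool.Agent.X43.HamLLL
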